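import Mathlib

set_option autoImplicit false

open Filter Topology Set Metric MeasureTheory
open scoped SchwartzMap ENNReal

namespace Pool.Agent.R231.BN

/-- the space `ℝⁿ` -/
abbrev V (n : ℕ) := EuclideanSpace ℝ (Fin n)

variable {n : ℕ}

/-- the character `x ↦ e^{i⟨x,ξ⟩}` -/
noncomputable def ch (ξ x : V n) : ℂ := Complex.exp (((inner ℝ x ξ : ℝ) : ℂ) * Complex.I)

/-- the Fourier transform `∫ f(x) e^{-i⟨x,ξ⟩} dx` of a function -/
noncomputable def ft (f : V n → ℂ) (ξ : V n) : ℂ :=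
  ∫ x, f x * Complex.exp (-(((inner ℝ x ξ : ℝ) : ℂ) * Complex.I))

/-- the Bernstein space `B(K)`: bounded (smooth) functions whose Fourier transform, a tempered
distribution, is supported in `K`: it vanishes on the Schwartz functions with support disjoint
from `K` -/
def Bsp (K : Set (V n)) : Set (V n → ℂ) :=
  {f | ContDiff ℝ (⊤ : ℕ∞) f ∧ (∃ C, ∀ x, ‖f x‖ ≤ C) ∧
    ∀ φ : 𝓢(V n, ℂ), Disjoint (tsupport φ) K → ∫ x, f x * ft φ x = 0}

/-- the operator `D_k = -i ∂/∂x_k` -/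
noncomputable def Dk (k : Fin n) (f : V n → ℂ) (x : V n) : ℂ :=
  -Complex.I * fderiv ℝ f x (EuclideanSpace.single k 1)

/-- the operator `D^α = D_1^{α_1} ⋯ D_n^{α_n}` -/
noncomputable def Dpow (α : Fin n →₀ ℕ) (f : V n → ℂ) : V n → ℂ :=
  (List.finRange n).foldr (fun k g => (Dk k)^[α k] g) f

/-- the operator `τ(D) = ∑ c_α D^α` -/
noncomputable def tauD (τ : MvPolynomial (Fin n) ℂ) (f : V n → ℂ) (x : V n) : ℂ :=
  ∑ α ∈ τ.support, τ.coeff α * Dpow α f x

/-- the value `τ(ξ)` -/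
noncomputable def ev (τ : MvPolynomial (Fin n) ℂ) (ξ : V n) : ℂ :=
  MvPolynomial.eval (fun k => ((ξ k : ℝ) : ℂ)) τ

/-- the norm of `τ(D)` on `B(K)`: the supremum of `‖τ(D) f‖_∞` over the `f ∈ B(K)` with
`‖f‖_∞ ≤ 1` -/
noncomputable def opNorm (τ : MvPolynomial (Fin n) ℂ) (K : Set (V n)) : ℝ≥0∞ :=
  ⨆ f ∈ {f : V n → ℂ | f ∈ Bsp K ∧ ∀ x, ‖f x‖ ≤ 1}, ⨆ x, ‖tauD τ f x‖ₑ

/-! ### exponential sums -/

lemma continuous_ch (ξ : V n) : Continuous (ch ξ) := by
  unfold ch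
  fun_prop

lemma norm_ch (ξ x : V n) : ‖ch ξ x‖ = 1 := by
  unfold ch
  exact Complex.norm_exp_ofReal_mul_I _

lemma ch_add (ξ η x : V n) : ch (ξ + η) x = ch ξ x * ch η x := by
  unfold ch
  rw [← Complex.exp_add, inner_add_right]
  push_cast
  ring_nf

lemma ch_zero (x : V n) : ch 0 x = 1 := by simp [ch]

lemma contDiff_ch (ξ : V n) : ContDiff ℝ (⊤ : ℕ∞) (ch ξ) := by
  unfold ch
  apply ContDiff.cexp
  apply ContDiff.mul _ contDiff_const
  apply Complex.ofRealCLM.contDiff.comp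
  exact contDiff_id.inner ℝ contDiff_const

lemma hasFDerivAt_ch (ξ x : V n) :
    HasFDerivAt (ch ξ) ((Complex.I * ch ξ x) • (Complex.ofRealCLM.comp (innerSL ℝ ξ))) x := by
  have h1 : HasFDerivAt (fun y : V n => (inner ℝ y ξ : ℝ)) (innerSL ℝ ξ) x := by
    have h : HasFDerivAt (fun y : V n => (inner ℝ ξ y : ℝ)) (innerSL ℝ ξ) x :=
      (innerSL ℝ ξ).hasFDerivAt
    exact h.congr_of_eventuallyEq (Filter.Eventually.of_forall fun y => real_inner_comm _ _)
  have h2 : HasFDerivAt (fun y : V n => (((inner ℝ y ξ : ℝ)) : ℂ)) (Complex.ofRealCLM.comp (innerSL ℝ ξ)) x :=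
    Complex.ofRealCLM.hasFDerivAt.comp x h1
  have h3 := (h2.mul_const Complex.I).cexp
  have h4 : HasFDerivAt (ch ξ) _ x := h3
  refine h4.congr_fderiv ?_
  ext v
  simp [ch]
  ring

/-- the exponential sum `∑_{i ∈ s} c_i e^{i⟨x,ξ_i⟩}` -/
noncomputable def es {ι : Type} (s : Finset ι) (ξ : ι → V n) (c : ι → ℂ) (x : V n) : ℂ :=
  ∑ i ∈ s, c i * ch (ξ i) x

lemma contDiff_es {ι : Type} (s : Finset ι) (ξ : ι → V n) (c : ι → ℂ) :
    ContDiff ℝ (⊤ : ℕ∞) (es s ξ c) := by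
  unfold es
  exact ContDiff.sum fun i _ => contDiff_const.mul (contDiff_ch _)

lemma Dk_es {ι : Type} (s : Finset ι) (ξ : ι → V n) (c : ι → ℂ) (k : Fin n) :
    Dk k (es s ξ c) = es s ξ (fun i => ((ξ i k : ℝ) : ℂ) * c i) := by
  funext x
  have h : HasFDerivAt (es s ξ c) (∑ i ∈ s, (c i) • ((Complex.I * ch (ξ i) x) •
      (Complex.ofRealCLM.comp (innerSL ℝ (ξ i))))) x := by
    have := HasFDerivAt.fun_sum (u := s) (A := fun i y => c i * ch (ξ i) y)
      (fun i _ => (hasFDerivAt_ch (ξ i) x).const_mul (c i))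
    exact this
  unfold Dk
  rw [h.fderiv]
  simp only [sum_apply, smul_apply,
    ContinuousLinearMap.comp_apply, smul_eq_mul, innerSL_apply_apply]
  unfold es
  rw [Finset.mul_sum]
  refine Finset.sum_congr rfl fun i _ => ?_
  have e : (inner ℝ (ξ i) (EuclideanSpace.single k (1 : ℝ)) : ℝ) = ξ i k := by
    simp [EuclideanSpace.inner_single_right]
  rw [e]
  simp only [Complex.ofRealCLM_apply]
  linear_combination (-(c i) * ch (ξ i) x * ((ξ i k : ℝ) : ℂ)) * Complex.I_mul_I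

lemma Dk_iter_es {ι : Type} (s : Finset ι) (ξ : ι → V n) (c : ι → ℂ) (k : Fin n) (m : ℕ) :
    (Dk k)^[m] (es s ξ c) = es s ξ (fun i => ((ξ i k : ℝ) : ℂ) ^ m * c i) := by
  induction m generalizing c with
  | zero => simp
  | succ m ih =>
    rw [Function.iterate_succ_apply, Dk_es, ih]
    congr 1
    funext i
    ring

lemma foldr_es {ι : Type} (s : Finset ι) (ξ : ι → V n) (c : ι → ℂ) (α : Fin n →₀ ℕ)
    (L : List (Fin n)) :
    L.foldr (fun k g => (Dk k)^[α k] g) (es s ξ c) =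
      es s ξ (fun i => (L.map fun k => ((ξ i k : ℝ) : ℂ) ^ α k).prod * c i) := by
  induction L with
  | nil => simp
  | cons k L ih =>
    rw [List.foldr_cons, ih, Dk_iter_es]
    congr 1
    funext i
    simp only [List.map_cons, List.prod_cons]
    ring

lemma tauD_es {ι : Type} (τ : MvPolynomial (Fin n) ℂ) (s : Finset ι) (ξ : ι → V n) (c : ι → ℂ)
    (x : V n) : tauD τ (es s ξ c) x = es s ξ (fun i => ev τ (ξ i) * c i) x := by
  unfold tauD
  have h : ∀ α : Fin n →₀ ℕ, Dpow α (es s ξ c) x =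
      ∑ i ∈ s, (∏ k, ((ξ i k : ℝ) : ℂ) ^ α k) * c i * ch (ξ i) x := by
    intro α
    unfold Dpow
    rw [foldr_es]
    unfold es
    refine Finset.sum_congr rfl fun i _ => ?_
    congr 2
  simp only [h]
  unfold es ev
  simp only [MvPolynomial.eval_eq', Finset.mul_sum, Finset.sum_mul]
  rw [Finset.sum_comm]
  refine Finset.sum_congr rfl fun i _ => Finset.sum_congr rfl fun α _ => ?_
  ring

end Pool.Agent.R231.BN
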