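import Mathlib
import Pool.Agent.R231.BN.Defs

set_option autoImplicit false

open Filter Topology Set Metric MeasureTheory
open scoped SchwartzMap ENNReal FourierTransform

namespace Pool.Agent.R231.BN

variable {n : ℕ}

lemma ft_eq (φ : V n → ℂ) (x : V n) : ft φ x = 𝓕 φ ((2 * Real.pi)⁻¹ • x) := by
  rw [Real.fourier_eq']
  unfold ft
  congr 1
  funext v
  rw [smul_eq_mul, mul_comm]
  congr 2
  rw [inner_smul_right]
  have hp : (Real.pi : ℂ) ≠ 0 := by exact_mod_cast Real.pi_ne_zero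
  push_cast
  field_simp

lemma integrable_fourier (φ : 𝓢(V n, ℂ)) : Integrable (𝓕 (φ : V n → ℂ)) := by
  rw [← SchwartzMap.fourier_coe]
  exact (𝓕 φ).integrable

lemma integrable_ft (φ : 𝓢(V n, ℂ)) : Integrable (ft (φ : V n → ℂ)) := by
  have h : ft (φ : V n → ℂ) = fun x => 𝓕 (φ : V n → ℂ) ((2 * Real.pi)⁻¹ • x) := by
    funext x; exact ft_eq _ _
  rw [h]
  exact (integrable_fourier φ).comp_smul (by have := Real.pi_pos; positivity)

/-- Fourier inversion for the pairing with a character -/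
lemma integral_ch_ft (φ : 𝓢(V n, ℂ)) (ξ : V n) :
    ∫ x, ch ξ x * ft φ x = ((|((2 * Real.pi) ^ n)| : ℝ) : ℂ) * φ ξ := by
  have hp : (0 : ℝ) < 2 * Real.pi := by have := Real.pi_pos; positivity
  have h1 := Measure.integral_comp_smul (volume : Measure (V n))
    (fun x => ch ξ x * ft (φ : V n → ℂ) x) (2 * Real.pi)
  have h2 : (∫ x, (fun x => ch ξ x * ft (φ : V n → ℂ) x) ((2 * Real.pi) • x)) = φ ξ := by
    have h3 : 𝓕⁻ (𝓕 (φ : V n → ℂ)) = φ :=
      φ.continuous.fourierInv_fourier_eq φ.integrable (integrable_fourier φ)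
    have h4 : 𝓕⁻ (𝓕 (φ : V n → ℂ)) ξ = φ ξ := congrFun h3 ξ
    rw [← h4, Real.fourierInv_eq']
    congr 1
    funext v
    show ch ξ ((2 * Real.pi) • v) * ft (φ : V n → ℂ) ((2 * Real.pi) • v) = _
    rw [ft_eq, smul_smul, inv_mul_cancel₀ hp.ne', one_smul, smul_eq_mul]
    congr 1
    unfold ch
    rw [inner_smul_left]
    simp
  rw [h2] at h1
  have h5 : Module.finrank ℝ (V n) = n := by simp
  rw [h5, Complex.real_smul, abs_inv] at h1
  have h6 : ((|((2 * Real.pi) ^ n)| : ℝ) : ℂ) ≠ 0 := by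
    have : |((2 * Real.pi) ^ n)| ≠ 0 := by positivity
    exact_mod_cast this
  rw [h1, ← mul_assoc]
  push_cast
  rw [mul_inv_cancel₀ (by exact_mod_cast h6), one_mul]

lemma es_mem_Bsp {ι : Type} (s : Finset ι) (ξ : ι → V n) (c : ι → ℂ) {K : Set (V n)}
    (hK : ∀ i ∈ s, ξ i ∈ K) : es s ξ c ∈ Bsp K := by
  refine ⟨contDiff_es s ξ c, ⟨∑ i ∈ s, ‖c i‖, fun x => ?_⟩, fun φ hφ => ?_⟩
  · unfold es
    refine (norm_sum_le _ _).trans (Finset.sum_le_sum fun i _ => ?_)
    rw [norm_mul, norm_ch, mul_one]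
  · have hint : ∀ i ∈ s, Integrable (fun x => c i * (ch (ξ i) x * ft (φ : V n → ℂ) x)) := by
      intro i _
      apply Integrable.const_mul
      refine (integrable_ft φ).bdd_mul (c := 1) (continuous_ch _).aestronglyMeasurable ?_
      exact Filter.Eventually.of_forall fun x => (norm_ch _ _).le
    have h1 : ∀ x, es s ξ c x * ft (φ : V n → ℂ) x =
        ∑ i ∈ s, c i * (ch (ξ i) x * ft (φ : V n → ℂ) x) := by
      intro x
      unfold es
      rw [Finset.sum_mul]
      exact Finset.sum_congr rfl fun i _ => by ring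
    simp only [h1]
    rw [integral_finsetSum _ hint]
    apply Finset.sum_eq_zero
    intro i hi
    rw [integral_const_mul, integral_ch_ft]
    have h2 : φ (ξ i) = 0 := by
      by_contra hne
      have h3 : ξ i ∈ tsupport φ := subset_tsupport _ hne
      exact (Set.disjoint_left.1 hφ h3) (hK i hi)
    rw [h2]; simp

/-- the inequality for exponential sums that the equality of norm and spectral radius gives -/
lemma es_bound {τ : MvPolynomial (Fin n) ℂ} {K : Set (V n)} {M : ℝ}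
    (hM : opNorm τ K ≤ ENNReal.ofReal M) (hM0 : 0 ≤ M) {ι : Type} (s : Finset ι) (ξ : ι → V n) (c : ι → ℂ)
    (hK : ∀ i ∈ s, ξ i ∈ K) {C : ℝ} (hC : 0 ≤ C) (hb : ∀ x, ‖es s ξ c x‖ ≤ C) :
    ‖∑ i ∈ s, c i * ev τ (ξ i)‖ ≤ C * M := by
  have key : ∀ C' : ℝ, 0 < C' → (∀ x, ‖es s ξ c x‖ ≤ C') → ‖∑ i ∈ s, c i * ev τ (ξ i)‖ ≤ C' * M := by
    intro C' hC' hb'
    set f : V n → ℂ := es s ξ (fun i => (C' : ℂ)⁻¹ * c i) with hf
    have hfx : ∀ x, f x = (C' : ℂ)⁻¹ * es s ξ c x := by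
      intro x
      rw [hf]
      unfold es
      rw [Finset.mul_sum]
      exact Finset.sum_congr rfl fun i _ => by ring
    have h1 : f ∈ {f : V n → ℂ | f ∈ Bsp K ∧ ∀ x, ‖f x‖ ≤ 1} := by
      refine ⟨es_mem_Bsp s ξ _ hK, fun x => ?_⟩
      rw [hfx, norm_mul, norm_inv, Complex.norm_real, Real.norm_of_nonneg hC'.le, inv_mul_le_iff₀ hC',
        mul_one]
      exact hb' x
    have h2 : ‖tauD τ f 0‖ₑ ≤ opNorm τ K := by
      unfold opNorm
      refine le_trans ?_ (le_iSup₂ f h1)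
      exact le_iSup (fun x => ‖tauD τ f x‖ₑ) 0
    have h3 := h2.trans hM
    rw [← ofReal_norm, ENNReal.ofReal_le_ofReal_iff hM0] at h3
    rw [hf, tauD_es] at h3
    have h4 : es s ξ (fun i => ev τ (ξ i) * ((C' : ℂ)⁻¹ * c i)) 0 =
        (C' : ℂ)⁻¹ * ∑ i ∈ s, c i * ev τ (ξ i) := by
      unfold es
      rw [Finset.mul_sum]
      refine Finset.sum_congr rfl fun i _ => ?_
      have : ch (ξ i) 0 = 1 := by simp [ch]
      rw [this]; ring
    rw [h4, norm_mul, norm_inv, Complex.norm_real, Real.norm_of_nonneg hC'.le,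
      inv_mul_le_iff₀ hC'] at h3
    exact h3
  have hlim : Tendsto (fun k : ℕ => (C + 1 / ((k : ℝ) + 1)) * M) atTop (𝓝 ((C + 0) * M)) :=
    (tendsto_const_nhds.add tendsto_one_div_add_atTop_nhds_zero_nat).mul_const M
  rw [add_zero] at hlim
  refine ge_of_tendsto' hlim fun k => ?_
  have hk : (0 : ℝ) < 1 / ((k : ℝ) + 1) := by positivity
  exact key _ (by linarith) fun x => (hb x).trans (by linarith)

end Pool.Agent.R231.BN
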