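import Mathlib
import Pool.Agent.R231.BN.Spec

set_option autoImplicit false

open Filter Topology Set Metric MeasureTheory
open scoped BoundedContinuousFunction

namespace Pool.Agent.R231.BN

/-- a solvable moment problem: Hahn-Banach (Helly) -/
theorem exists_functional {X : Type*} [NormedAddCommGroup X] [NormedSpace ℂ X] {I : Type*}
    (e : I → X) (p : I → ℂ)
    (h : ∀ c : I →₀ ℂ, ‖Finsupp.linearCombination ℂ p c‖ ≤ ‖Finsupp.linearCombination ℂ e c‖) :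
    ∃ L : X →L[ℂ] ℂ, ‖L‖ ≤ 1 ∧ ∀ i, L (e i) = p i := by
  set A := Finsupp.linearCombination ℂ e with hA
  set l := Finsupp.linearCombination ℂ p with hl
  have hker : LinearMap.ker A ≤ LinearMap.ker l := by
    intro c hc
    rw [LinearMap.mem_ker] at hc ⊢
    have := h c
    rw [hc, norm_zero] at this
    exact norm_le_zero_iff.1 this
  set f0 : LinearMap.range A →ₗ[ℂ] ℂ :=
    ((LinearMap.ker A).liftQ l hker) ∘ₗ (A.quotKerEquivRange.symm : LinearMap.range A →ₗ[ℂ] _) with hf0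
  have hf0A : ∀ c (hc : A c ∈ LinearMap.range A), f0 ⟨A c, hc⟩ = l c := by
    intro c hc
    have h1 : A.quotKerEquivRange.symm ⟨A c, hc⟩ = (LinearMap.ker A).mkQ c := by
      rw [LinearEquiv.symm_apply_eq]
      apply Subtype.ext
      simp
    rw [hf0, LinearMap.comp_apply]
    have h2 : (A.quotKerEquivRange.symm : LinearMap.range A →ₗ[ℂ] _) ⟨A c, hc⟩ =
      (LinearMap.ker A).mkQ c := h1
    rw [h2, Submodule.mkQ_apply, Submodule.liftQ_apply]
  have hb : ∀ y : LinearMap.range A, ‖f0 y‖ ≤ 1 * ‖y‖ := by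
    rintro ⟨y, c, rfl⟩
    rw [one_mul, hf0A]
    exact h c
  obtain ⟨L, hL, hLn⟩ := exists_extension_norm_eq (LinearMap.range A) (f0.mkContinuous 1 hb)
  refine ⟨L, ?_, fun i => ?_⟩
  · rw [hLn]
    exact LinearMap.mkContinuous_norm_le _ zero_le_one _
  · have h1 : A (Finsupp.single i 1) = e i := by simp [hA]
    have h2 : e i ∈ LinearMap.range A := ⟨_, h1⟩
    have h3 := hL ⟨e i, h2⟩
    rw [h3, LinearMap.mkContinuous_apply]
    have h4 : (⟨e i, h2⟩ : LinearMap.range A) = ⟨A (Finsupp.single i 1), ⟨_, rfl⟩⟩ :=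
      Subtype.ext h1.symm
    rw [h4, hf0A]
    simp [hl]

variable {n : ℕ}

/-- the character as a bounded continuous function -/
noncomputable def bch (ξ : V n) : V n →ᵇ ℂ :=
  BoundedContinuousFunction.ofNormedAddCommGroup (ch ξ) (continuous_ch ξ) 1
    (fun x => (norm_ch ξ x).le)

@[simp] lemma bch_apply (ξ x : V n) : bch ξ x = ch ξ x := rfl

/-- real bounded functions as complex ones -/
noncomputable def ofR (u : V n →ᵇ ℝ) : V n →ᵇ ℂ :=
  BoundedContinuousFunction.ofNormedAddCommGroup (fun x => ((u x : ℝ) : ℂ))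
    (Complex.continuous_ofReal.comp u.continuous) ‖u‖
    (fun x => by rw [Complex.norm_real]; exact u.norm_coe_le_norm x)

@[simp] lemma ofR_apply (u : V n →ᵇ ℝ) (x : V n) : ofR u x = ((u x : ℝ) : ℂ) := rfl

/-- real part -/
noncomputable def reR (g : V n →ᵇ ℂ) : V n →ᵇ ℝ :=
  BoundedContinuousFunction.ofNormedAddCommGroup (fun x => (g x).re)
    (Complex.continuous_re.comp g.continuous) ‖g‖
    (fun x => (Complex.abs_re_le_norm _).trans (g.norm_coe_le_norm x))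

noncomputable def imR (g : V n →ᵇ ℂ) : V n →ᵇ ℝ :=
  BoundedContinuousFunction.ofNormedAddCommGroup (fun x => (g x).im)
    (Complex.continuous_im.comp g.continuous) ‖g‖
    (fun x => (Complex.abs_im_le_norm _).trans (g.norm_coe_le_norm x))

/-- a state on the bounded continuous functions -/
structure State (L : (V n →ᵇ ℂ) →L[ℂ] ℂ) : Prop where
  norm_le : ‖L‖ ≤ 1
  one : L 1 = 1

lemma State.le {L : (V n →ᵇ ℂ) →L[ℂ] ℂ} (hL : State L) (g : V n →ᵇ ℂ) : ‖L g‖ ≤ ‖g‖ := by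
  refine (L.le_opNorm g).trans ?_
  calc ‖L‖ * ‖g‖ ≤ 1 * ‖g‖ := by gcongr; exact hL.norm_le
    _ = ‖g‖ := one_mul _

lemma State.im_ofR {L : (V n →ᵇ ℂ) →L[ℂ] ℂ} (hL : State L) (u : V n →ᵇ ℝ) :
    (L (ofR u)).im = 0 := by
  by_contra hne
  set b := (L (ofR u)).im with hb
  have key : ∀ s : ℝ, (b + s) ^ 2 ≤ ‖u‖ ^ 2 + s ^ 2 := by
    intro s
    have h1 : L (ofR u + ((s : ℂ) * Complex.I) • 1) = L (ofR u) + (s : ℂ) * Complex.I := by
      rw [map_add, map_smul, hL.one, smul_eq_mul, mul_one]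
    have h2 : ‖ofR u + ((s : ℂ) * Complex.I) • (1 : V n →ᵇ ℂ)‖ ≤ Real.sqrt (‖u‖ ^ 2 + s ^ 2) := by
      rw [BoundedContinuousFunction.norm_le (Real.sqrt_nonneg _)]
      intro x
      rw [← Real.sqrt_sq (norm_nonneg _)]
      apply Real.sqrt_le_sqrt
      rw [← Complex.normSq_eq_norm_sq, Complex.normSq_apply]
      have h3 : |u x| ≤ ‖u‖ := u.norm_coe_le_norm x
      have h4 : u x ^ 2 ≤ ‖u‖ ^ 2 := by
        rw [← sq_abs]; gcongr
      simp
      nlinarith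
    have h3 := (hL.le _).trans h2
    rw [h1] at h3
    have h4 : |(L (ofR u) + (s : ℂ) * Complex.I).im| ≤ Real.sqrt (‖u‖ ^ 2 + s ^ 2) :=
      (Complex.abs_im_le_norm _).trans h3
    have h5 : (L (ofR u) + (s : ℂ) * Complex.I).im = b + s := by simp [hb]
    rw [h5] at h4
    calc (b + s) ^ 2 = |b + s| ^ 2 := (sq_abs _).symm
      _ ≤ (Real.sqrt (‖u‖ ^ 2 + s ^ 2)) ^ 2 := by gcongr
      _ = _ := Real.sq_sqrt (by positivity)
  have h1 := key ((‖u‖ ^ 2 + 1) / b)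
  have h2 : (b + (‖u‖ ^ 2 + 1) / b) ^ 2 = b ^ 2 + 2 * (‖u‖ ^ 2 + 1) + ((‖u‖ ^ 2 + 1) / b) ^ 2 := by
    field_simp
    ring
  rw [h2] at h1
  nlinarith [sq_nonneg b, sq_nonneg ‖u‖]

/-- the associated real functional -/
noncomputable def Lam (L : (V n →ᵇ ℂ) →L[ℂ] ℂ) (u : V n →ᵇ ℝ) : ℝ := (L (ofR u)).re

lemma State.ofR_eq {L : (V n →ᵇ ℂ) →L[ℂ] ℂ} (hL : State L) (u : V n →ᵇ ℝ) :
    L (ofR u) = (Lam L u : ℂ) :=
  Complex.ext (by simp [Lam]) (by simp [hL.im_ofR])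

lemma Lam_add (L : (V n →ᵇ ℂ) →L[ℂ] ℂ) (u v : V n →ᵇ ℝ) : Lam L (u + v) = Lam L u + Lam L v := by
  unfold Lam
  have : ofR (u + v) = ofR u + ofR v := by ext x; simp
  rw [this, map_add, Complex.add_re]

lemma Lam_smul (L : (V n →ᵇ ℂ) →L[ℂ] ℂ) (c : ℝ) (u : V n →ᵇ ℝ) : Lam L (c • u) = c * Lam L u := by
  unfold Lam
  have : ofR (c • u) = (c : ℂ) • ofR u := by ext x; simp
  rw [this, map_smul, smul_eq_mul, Complex.re_ofReal_mul]

lemma Lam_neg (L : (V n →ᵇ ℂ) →L[ℂ] ℂ) (u : V n →ᵇ ℝ) : Lam L (-u) = -Lam L u := by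
  have h := Lam_smul L (-1) u
  have h2 : (-1 : ℝ) • u = -u := by ext x; simp
  rw [h2] at h
  linarith

lemma Lam_sub (L : (V n →ᵇ ℂ) →L[ℂ] ℂ) (u v : V n →ᵇ ℝ) : Lam L (u - v) = Lam L u - Lam L v := by
  rw [sub_eq_add_neg, Lam_add, Lam_neg, sub_eq_add_neg]

lemma Lam_sum (L : (V n →ᵇ ℂ) →L[ℂ] ℂ) {ι : Type*} (s : Finset ι) (u : ι → V n →ᵇ ℝ) :
    Lam L (∑ i ∈ s, u i) = ∑ i ∈ s, Lam L (u i) := by
  classical
  induction s using Finset.induction_on with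
  | empty =>
    simp only [Finset.sum_empty]
    have := Lam_smul L 0 0
    simpa using this
  | insert a s ha ih => rw [Finset.sum_insert ha, Finset.sum_insert ha, Lam_add, ih]

lemma State.Lam_one {L : (V n →ᵇ ℂ) →L[ℂ] ℂ} (hL : State L) : Lam L 1 = 1 := by
  unfold Lam
  have : ofR (1 : V n →ᵇ ℝ) = 1 := by ext x; simp
  rw [this, hL.one]; simp

lemma State.Lam_nonneg {L : (V n →ᵇ ℂ) →L[ℂ] ℂ} (hL : State L) {u : V n →ᵇ ℝ}
    (hu : ∀ x, 0 ≤ u x) : 0 ≤ Lam L u := by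
  have h1 : ‖ofR (u - (‖u‖ / 2) • 1)‖ ≤ ‖u‖ / 2 := by
    rw [BoundedContinuousFunction.norm_le (by positivity)]
    intro x
    rw [ofR_apply, Complex.norm_real, Real.norm_eq_abs, abs_le]
    have h3 : |u x| ≤ ‖u‖ := u.norm_coe_le_norm x
    have h4 := abs_le.1 h3
    have h5 := hu x
    simp
    constructor <;> linarith
  have h2 := (hL.le _).trans h1
  rw [hL.ofR_eq, Complex.norm_real, Real.norm_eq_abs, abs_le, Lam_sub, Lam_smul, hL.Lam_one] at h2
  linarith [h2.1]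

lemma State.Lam_mono {L : (V n →ᵇ ℂ) →L[ℂ] ℂ} (hL : State L) {u v : V n →ᵇ ℝ}
    (huv : ∀ x, u x ≤ v x) : Lam L u ≤ Lam L v := by
  have := hL.Lam_nonneg (u := v - u) (fun x => by
    have := huv x
    simp; linarith)
  rw [Lam_sub] at this
  linarith

lemma State.re_eq {L : (V n →ᵇ ℂ) →L[ℂ] ℂ} (hL : State L) (g : V n →ᵇ ℂ) :
    (L g).re = Lam L (reR g) := by
  have h1 : g = ofR (reR g) + Complex.I • ofR (imR g) := by
    ext x
    simp only [BoundedContinuousFunction.coe_add, BoundedContinuousFunction.coe_smul, Pi.add_apply,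
      ofR_apply, smul_eq_mul]
    rw [mul_comm]
    exact (Complex.re_add_im (g x)).symm
  have h2 : L g = L (ofR (reR g)) + Complex.I * L (ofR (imR g)) := by
    conv_lhs => rw [h1]
    rw [map_add, map_smul, smul_eq_mul]
  rw [h2, hL.ofR_eq, hL.ofR_eq]
  simp

end Pool.Agent.R231.BN
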