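import Mathlib
import Pool.Agent.R231.BN.Func

set_option autoImplicit false

open Filter Topology Set Metric MeasureTheory
open scoped BoundedContinuousFunction

namespace Pool.Agent.R231.BN

variable {n : ℕ}

/-- `x ↦ cos ⟨x, w⟩` -/
noncomputable def cosf (w : V n) : V n →ᵇ ℝ :=
  BoundedContinuousFunction.ofNormedAddCommGroup (fun x => Real.cos (inner ℝ x w)) (by fun_prop) 1
    (fun x => by rw [Real.norm_eq_abs]; exact Real.abs_cos_le_one _)

@[simp] lemma cosf_apply (w x : V n) : cosf w x = Real.cos (inner ℝ x w) := rfl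

lemma ch_re (w x : V n) : (ch w x).re = Real.cos (inner ℝ x w) := by
  unfold ch
  rw [Complex.exp_ofReal_mul_I_re]

lemma reR_bch (w : V n) : reR (bch w) = cosf w := by
  ext x
  exact ch_re w x

/-- Fejér sums -/
lemma fejer_sum (N : ℕ) (θ : ℝ) :
    Complex.normSq (∑ m ∈ Finset.range (N + 1), Complex.exp (((m * θ : ℝ) : ℂ) * Complex.I)) =
      (N + 1) + ∑ m ∈ Finset.range N, 2 * ((N : ℝ) - m) * Real.cos ((m + 1) * θ) := by
  have hre : ∀ K : ℕ, (∑ m ∈ Finset.range K, Complex.exp (((m * θ : ℝ) : ℂ) * Complex.I)).re =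
      ∑ m ∈ Finset.range K, Real.cos (m * θ) := by
    intro K
    rw [Complex.re_sum]
    exact Finset.sum_congr rfl fun m _ => Complex.exp_ofReal_mul_I_re _
  have him : ∀ K : ℕ, (∑ m ∈ Finset.range K, Complex.exp (((m * θ : ℝ) : ℂ) * Complex.I)).im =
      ∑ m ∈ Finset.range K, Real.sin (m * θ) := by
    intro K
    rw [Complex.im_sum]
    exact Finset.sum_congr rfl fun m _ => Complex.exp_ofReal_mul_I_im _
  induction N with
  | zero => simp
  | succ N ih =>
    rw [Complex.normSq_apply, hre, him] at ih ⊢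
    rw [Finset.sum_range_succ _ (N + 1), Finset.sum_range_succ _ (N + 1)]
    set A := ∑ m ∈ Finset.range (N + 1), Real.cos (m * θ) with hA
    set B := ∑ m ∈ Finset.range (N + 1), Real.sin (m * θ) with hB
    have h1 : Real.cos ((N + 1 : ℕ) * θ) ^ 2 + Real.sin ((N + 1 : ℕ) * θ) ^ 2 = 1 :=
      Real.cos_sq_add_sin_sq _
    have h2 : Real.cos ((N + 1 : ℕ) * θ) * A + Real.sin ((N + 1 : ℕ) * θ) * B =
        ∑ m ∈ Finset.range (N + 1), Real.cos ((m + 1) * θ) := by
      rw [hA, hB, Finset.mul_sum, Finset.mul_sum, ← Finset.sum_add_distrib,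
        ← Finset.sum_range_reflect]
      refine Finset.sum_congr rfl fun m hm => ?_
      rw [← Real.cos_sub]
      congr 1
      have : m ≤ N := by
        have := Finset.mem_range.1 hm
        omega
      push_cast [Nat.add_sub_cancel, Nat.cast_sub this]
      ring
    have h3 : ∑ m ∈ Finset.range (N + 1), 2 * (((N + 1 : ℕ) : ℝ) - m) * Real.cos ((m + 1) * θ) =
        ∑ m ∈ Finset.range N, 2 * ((N : ℝ) - m) * Real.cos ((m + 1) * θ) +
        2 * ∑ m ∈ Finset.range (N + 1), Real.cos ((m + 1) * θ) := by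
      have h4 : ∑ m ∈ Finset.range N, 2 * ((N : ℝ) - m) * Real.cos ((m + 1) * θ) =
          ∑ m ∈ Finset.range (N + 1), 2 * ((N : ℝ) - m) * Real.cos ((m + 1) * θ) := by
        rw [Finset.sum_range_succ]; simp
      rw [h4, Finset.mul_sum, ← Finset.sum_add_distrib]
      refine Finset.sum_congr rfl fun m _ => ?_
      push_cast; ring
    rw [h3, ← h2]
    push_cast at *
    nlinarith

/-- the normalized Fejér kernel in the direction `w` -/
noncomputable def Fj (N : ℕ) (w : V n) : V n →ᵇ ℝ :=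
  (1 / ((N : ℝ) + 1)) • (1 + ∑ m ∈ Finset.range N,
    (2 * (1 - ((m : ℝ) + 1) / ((N : ℝ) + 1))) • cosf (((m : ℝ) + 1) • w))

lemma Fj_apply (N : ℕ) (w x : V n) : Fj N w x = 1 / ((N : ℝ) + 1) * (1 + ∑ m ∈ Finset.range N,
    (2 * (1 - ((m : ℝ) + 1) / ((N : ℝ) + 1))) * Real.cos (((m : ℝ) + 1) * inner ℝ x w)) := by
  simp only [Fj, BoundedContinuousFunction.coe_smul, BoundedContinuousFunction.coe_add,
    Pi.add_apply, BoundedContinuousFunction.coe_one, Pi.one_apply, smul_eq_mul,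
    BoundedContinuousFunction.coe_sum, Finset.sum_apply, cosf_apply, inner_smul_right]

lemma Fj_eq (N : ℕ) (w x : V n) : Fj N w x = 1 / ((N : ℝ) + 1) ^ 2 *
    Complex.normSq (∑ m ∈ Finset.range (N + 1),
      Complex.exp (((m * (inner ℝ x w : ℝ) : ℝ) : ℂ) * Complex.I)) := by
  rw [fejer_sum, Fj_apply]
  have hN : (N : ℝ) + 1 ≠ 0 := by positivity
  have h1 : ∑ m ∈ Finset.range N, (2 * (1 - ((m : ℝ) + 1) / ((N : ℝ) + 1))) *
      Real.cos (((m : ℝ) + 1) * inner ℝ x w) = 1 / ((N : ℝ) + 1) *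
      ∑ m ∈ Finset.range N, 2 * ((N : ℝ) - m) * Real.cos ((m + 1) * inner ℝ x w) := by
    rw [Finset.mul_sum]
    refine Finset.sum_congr rfl fun m _ => ?_
    field_simp
    ring
  rw [h1]
  generalize (∑ m ∈ Finset.range N, 2 * ((N : ℝ) - m) * Real.cos ((m + 1) * inner ℝ x w)) = S
  field_simp

lemma Fj_nonneg (N : ℕ) (w x : V n) : 0 ≤ Fj N w x := by
  rw [Fj_eq]
  have := Complex.normSq_nonneg (∑ m ∈ Finset.range (N + 1),
      Complex.exp (((m * (inner ℝ x w : ℝ) : ℝ) : ℂ) * Complex.I))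
  positivity

lemma Fj_le_one (N : ℕ) (w x : V n) : Fj N w x ≤ 1 := by
  rw [Fj_eq, Complex.normSq_eq_norm_sq]
  have hN : (0 : ℝ) < (N : ℝ) + 1 := by positivity
  have h1 : ‖∑ m ∈ Finset.range (N + 1),
      Complex.exp (((m * (inner ℝ x w : ℝ) : ℝ) : ℂ) * Complex.I)‖ ≤ (N : ℝ) + 1 := by
    refine (norm_sum_le _ _).trans ?_
    simp only [Complex.norm_exp_ofReal_mul_I, Finset.sum_const, Finset.card_range,
      nsmul_eq_mul, mul_one]
    push_cast; rfl
  rw [one_div, inv_mul_le_iff₀ (by positivity), mul_one]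
  gcongr

/-- `2 - 2 cos ⟨x, w⟩ = |e^{i⟨x,w⟩} - 1|²` -/
noncomputable def Qf (w : V n) : V n →ᵇ ℝ := (2 : ℝ) • (1 - cosf w)

@[simp] lemma Qf_apply (w x : V n) : Qf w x = 2 * (1 - Real.cos (inner ℝ x w)) := by
  simp [Qf]

lemma Qf_nonneg (w x : V n) : 0 ≤ Qf w x := by
  rw [Qf_apply]
  have := Real.cos_le_one (inner ℝ x w)
  linarith

lemma Qf_le (w x : V n) : Qf w x ≤ 4 := by
  rw [Qf_apply]
  have := Real.neg_one_le_cos (inner ℝ x w)
  linarith

lemma Qf_two (w x : V n) : Qf ((2 : ℝ) • w) x = Qf w x * (4 - Qf w x) := by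
  rw [Qf_apply, Qf_apply, inner_smul_right, Real.cos_two_mul]
  ring

/-- expansion of `e_a |e_w - 1|^{2k}` -/
lemma expand (a w : V n) (k : ℕ) : bch a * ofR ((Qf w) ^ k) =
    ∑ i ∈ Finset.range (2 * k + 1), ((-1 : ℂ) ^ k * ((-1) ^ i * ((2 * k).choose i : ℂ))) •
      bch (a + ((i : ℝ) - k) • w) := by
  ext x
  simp only [BoundedContinuousFunction.coe_mul, Pi.mul_apply, bch_apply, ofR_apply,
    BoundedContinuousFunction.coe_pow, Pi.pow_apply, BoundedContinuousFunction.coe_sum,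
    Finset.sum_apply, BoundedContinuousFunction.coe_smul, smul_eq_mul]
  set z : ℂ := ch w x with hz
  have hz0 : z ≠ 0 := by
    have := norm_ch w x
    intro h
    rw [← hz, h, norm_zero] at this
    exact zero_ne_one this
  have hzc : ∀ s : ℝ, ch (s • w) x = Complex.exp ((s * (inner ℝ x w : ℝ) : ℝ) * Complex.I) := by
    intro s; unfold ch; rw [inner_smul_right]
  have h1 : ∀ i : ℕ, ch (((i : ℝ) - k) • w) x = z ^ i * (z⁻¹) ^ k := by
    intro i
    rw [hzc, hz, ch, ← Complex.exp_neg, ← Complex.exp_nat_mul, ← Complex.exp_nat_mul,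
      ← Complex.exp_add]
    congr 1
    push_cast
    ring
  have hQ : ((Qf w x : ℝ) : ℂ) = -(z - 1) ^ 2 * z⁻¹ := by
    have hre : z.re = Real.cos (inner ℝ x w) := ch_re w x
    have hn : z * (starRingEnd ℂ) z = 1 := by
      rw [Complex.mul_conj, Complex.normSq_eq_norm_sq, norm_ch]; simp
    have hinv : z⁻¹ = (starRingEnd ℂ) z := by
      rw [eq_comm]; exact eq_inv_of_mul_eq_one_right hn
    have hadd : z + (starRingEnd ℂ) z = ((2 * z.re : ℝ) : ℂ) := by
      rw [Complex.add_conj]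
    rw [Qf_apply, ← hre, hinv]
    push_cast at hadd ⊢
    linear_combination (z - 2) * hn + (1 : ℂ) * hadd
  rw [Complex.ofReal_pow, hQ]
  have h2 : (-(z - 1) ^ 2 * z⁻¹) ^ k = (-1) ^ k * ((z + (-1)) ^ (2 * k)) * (z⁻¹) ^ k := by
    rw [pow_mul, ← mul_pow, ← mul_pow]
    congr 1
    ring
  rw [h2, add_pow, Finset.mul_sum, Finset.sum_mul, Finset.mul_sum]
  refine Finset.sum_congr rfl fun i hi => ?_
  rw [ch_add, h1]
  have hi' : i ≤ 2 * k := by
    have := Finset.mem_range.1 hi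
    omega
  have h3 : (-1 : ℂ) ^ (2 * k - i) = (-1) ^ i := by
    have h4 : (-1 : ℂ) ^ (2 * k - i) * (-1) ^ i = 1 := by
      rw [← pow_add, Nat.sub_add_cancel hi', pow_mul]; simp
    have h5 : (-1 : ℂ) ^ i * (-1) ^ i = 1 := by
      rw [← pow_add, ← two_mul, pow_mul]; simp
    calc (-1 : ℂ) ^ (2 * k - i) = (-1 : ℂ) ^ (2 * k - i) * ((-1) ^ i * (-1) ^ i) := by rw [h5, mul_one]
      _ = ((-1 : ℂ) ^ (2 * k - i) * (-1) ^ i) * (-1) ^ i := by ring
      _ = (-1) ^ i := by rw [h4, one_mul]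
  rw [h3]
  ring

/-- central differences annihilate polynomials of low degree -/
lemma central_diff {j k : ℕ} (h : j < 2 * k) :
    ∑ i ∈ Finset.range (2 * k + 1), ((-1 : ℂ) ^ i * ((2 * k).choose i : ℂ)) * ((i : ℂ) - k) ^ j = 0 := by
  have h1 := fwdDiff_iter_pow_eq_zero_of_lt (R := ℂ) h
  have h2 := fwdDiff_iter_eq_sum_shift (1 : ℂ) (fun x : ℂ => x ^ j) (2 * k) (-(k : ℂ))
  rw [h1] at h2
  simp only [Pi.zero_apply] at h2
  rw [eq_comm] at h2
  rw [← h2]
  refine Finset.sum_congr rfl fun i hi => ?_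
  have hi' : i ≤ 2 * k := by
    have := Finset.mem_range.1 hi
    omega
  have h3 : (-1 : ℤ) ^ (2 * k - i) = (-1) ^ i := by
    have h4 : (-1 : ℤ) ^ (2 * k - i) * (-1) ^ i = 1 := by
      rw [← pow_add, Nat.sub_add_cancel hi', pow_mul]; simp
    have h5 : (-1 : ℤ) ^ i * (-1) ^ i = 1 := by
      rw [← pow_add, ← two_mul, pow_mul]; simp
    calc (-1 : ℤ) ^ (2 * k - i) = (-1 : ℤ) ^ (2 * k - i) * ((-1) ^ i * (-1) ^ i) := by rw [h5, mul_one]
      _ = ((-1 : ℤ) ^ (2 * k - i) * (-1) ^ i) * (-1) ^ i := by ring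
      _ = (-1) ^ i := by rw [h4, one_mul]
  rw [h3, zsmul_eq_mul]
  push_cast
  simp only [nsmul_eq_mul, mul_one]
  ring

end Pool.Agent.R231.BN
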