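import Mathlib
import Pool.Agent.R231.BN.Kern

set_option autoImplicit false

open Filter Topology Set Metric MeasureTheory
open scoped BoundedContinuousFunction

namespace Pool.Agent.R231.BN

variable {n : ℕ}

/-- the situation: a state `L` with `L(e_η) = P(η)` for `η` in the ball `K - ξ₀`, where `P` is a
continuous function that is polynomial along the direction `e ⟂ ξ₀` -/
structure Ctx (L : (V n →ᵇ ℂ) →L[ℂ] ℂ) (ξ₀ e : V n) (r : ℝ) (P : V n → ℂ) : Prop where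
  st : State L
  hr : 0 < r
  hξ : ‖ξ₀‖ ≤ r
  he : ‖e‖ ≤ 1
  hperp : inner ℝ ξ₀ e = (0 : ℝ)
  hP : ∀ η, ‖ξ₀ + η‖ ≤ r → L (bch η) = P η
  hPc : Continuous P
  hPd : ∃ (N : ℕ) (p : ℕ → V n → ℂ), (∀ j, Continuous (p j)) ∧
    ∀ a (u : ℝ), P (a + u • e) = ∑ j ∈ Finset.range N, p j a * (u : ℂ) ^ j

variable {L : (V n →ᵇ ℂ) →L[ℂ] ℂ} {ξ₀ e : V n} {r : ℝ} {P : V n → ℂ}

/-- bound for the central differences -/
lemma diff_bound (hc : Ctx L ξ₀ e r P) : ∃ N₀ : ℕ, ∀ k : ℕ, ∃ C : ℝ, 0 ≤ C ∧ (N₀ ≤ 2 * k → C = 0) ∧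
    ∀ a : V n, ‖a‖ ≤ r → ∀ t : ℝ, 0 < t → t ≤ 1 →
      ‖∑ i ∈ Finset.range (2 * k + 1), ((-1 : ℂ) ^ k * ((-1) ^ i * ((2 * k).choose i : ℂ))) *
        P (a + ((i : ℝ) - k) • t • e)‖ ≤ C * t ^ (2 * k) := by
  obtain ⟨N, p, hp, hpe⟩ := hc.hPd
  refine ⟨N, fun k => ?_⟩
  -- bounds of the coefficients on the ball
  have hB : ∀ j, ∃ B : ℝ, 0 ≤ B ∧ ∀ a ∈ closedBall (0 : V n) r, ‖p j a‖ ≤ B := by
    intro j
    obtain ⟨B, hB⟩ := (isCompact_closedBall (0 : V n) r).exists_bound_of_continuousOn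
      (hp j).continuousOn
    exact ⟨max B 0, le_max_right _ _, fun a ha => (hB a ha).trans (le_max_left _ _)⟩
  choose B hB0 hB using hB
  set S : ℕ → ℂ := fun j => ∑ i ∈ Finset.range (2 * k + 1),
    ((-1 : ℂ) ^ i * ((2 * k).choose i : ℂ)) * ((i : ℂ) - k) ^ j with hS
  have hS0 : ∀ j, j < 2 * k → S j = 0 := fun j hj => central_diff hj
  set J := (Finset.range N).filter (fun j => 2 * k ≤ j) with hJ
  refine ⟨∑ j ∈ J, B j * ‖S j‖, Finset.sum_nonneg fun j _ => mul_nonneg (hB0 j) (norm_nonneg _),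
    ?_, ?_⟩
  · intro h
    apply Finset.sum_eq_zero
    intro j hj
    rw [hJ, Finset.mem_filter, Finset.mem_range] at hj
    omega
  · intro a ha t ht0 ht1
    have ha' : a ∈ closedBall (0 : V n) r := by rwa [mem_closedBall_zero_iff]
    have h1 : ∑ i ∈ Finset.range (2 * k + 1), ((-1 : ℂ) ^ k * ((-1) ^ i * ((2 * k).choose i : ℂ))) *
        P (a + ((i : ℝ) - k) • t • e) = (-1) ^ k * ∑ j ∈ Finset.range N, p j a * (t : ℂ) ^ j * S j := by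
      have h2 : ∀ i : ℕ, P (a + ((i : ℝ) - k) • t • e) =
          ∑ j ∈ Finset.range N, p j a * (((i : ℂ) - k) * t) ^ j := by
        intro i
        rw [smul_smul, hpe]
        refine Finset.sum_congr rfl fun j _ => ?_
        push_cast; rfl
      simp only [h2, hS, Finset.mul_sum]
      rw [Finset.sum_comm]
      refine Finset.sum_congr rfl fun j _ => Finset.sum_congr rfl fun i _ => ?_
      rw [mul_pow]
      ring
    rw [h1, norm_mul, norm_pow, norm_neg, norm_one, one_pow, one_mul]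
    have h3 : ∑ j ∈ Finset.range N, p j a * (t : ℂ) ^ j * S j =
        ∑ j ∈ J, p j a * (t : ℂ) ^ j * S j := by
      rw [hJ, Finset.sum_filter]
      refine Finset.sum_congr rfl fun j _ => ?_
      split_ifs with h
      · rfl
      · rw [hS0 j (by omega), mul_zero]
    rw [h3, Finset.sum_mul]
    refine (norm_sum_le _ _).trans (Finset.sum_le_sum fun j hj => ?_)
    rw [hJ, Finset.mem_filter] at hj
    rw [norm_mul, norm_mul, norm_pow, Complex.norm_real, Real.norm_of_nonneg ht0.le]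
    have h4 : t ^ j ≤ t ^ (2 * k) := pow_le_pow_of_le_one ht0.le ht1 hj.2
    have hb1 := hB j a ha'
    have hb0 := hB0 j
    calc ‖p j a‖ * t ^ j * ‖S j‖ ≤ B j * t ^ (2 * k) * ‖S j‖ := by gcongr
      _ = _ := by ring

/-- points of the ball used below -/
lemma in_ball (hc : Ctx L ξ₀ e r P) {s u : ℝ} (hs0 : 0 < s) (hs1 : s ≤ 1) (hu : u ^ 2 ≤ s * r ^ 2) :
    ‖ξ₀ + (-(s • ξ₀) + u • e)‖ ≤ r := by
  have h0 := hc.hr
  have h1 : ξ₀ + (-(s • ξ₀) + u • e) = (1 - s) • ξ₀ + u • e := by module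
  rw [h1]
  have h2 : ‖(1 - s) • ξ₀ + u • e‖ ^ 2 = (1 - s) ^ 2 * ‖ξ₀‖ ^ 2 + u ^ 2 * ‖e‖ ^ 2 := by
    rw [norm_add_sq_real, inner_smul_left, inner_smul_right, hc.hperp, norm_smul, norm_smul,
      mul_pow, mul_pow, Real.norm_eq_abs, Real.norm_eq_abs, sq_abs, sq_abs]
    ring
  have h3 : ‖ξ₀‖ ^ 2 ≤ r ^ 2 := by
    have := hc.hξ
    gcongr
  have h4 : ‖e‖ ^ 2 ≤ 1 := by
    have := hc.he
    exact pow_le_one₀ (norm_nonneg _) this
  have h5 : ‖(1 - s) • ξ₀ + u • e‖ ^ 2 ≤ r ^ 2 := by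
    rw [h2]
    calc (1 - s) ^ 2 * ‖ξ₀‖ ^ 2 + u ^ 2 * ‖e‖ ^ 2 ≤ (1 - s) ^ 2 * r ^ 2 + u ^ 2 * 1 := by gcongr
      _ ≤ (1 - s) ^ 2 * r ^ 2 + s * r ^ 2 := by linarith
      _ ≤ r ^ 2 := by nlinarith [sq_nonneg r, mul_nonneg hs0.le (sub_nonneg.2 hs1)]
  exact le_of_sq_le_sq h5 h0.le

lemma reR_bch_mul (a : V n) (G : V n →ᵇ ℝ) : reR (bch (-a) * ofR G) = cosf a * G := by
  ext x
  show (ch (-a) x * ((G x : ℝ) : ℂ)).re = Real.cos (inner ℝ x a) * G x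
  rw [Complex.re_mul_ofReal, ch_re, inner_neg_right, Real.cos_neg]

/-- `G_t^k = |e_{te} - 1|^{2k} / t^{2k}` -/
noncomputable def Gf (e : V n) (k : ℕ) (t : ℝ) : V n →ᵇ ℝ := ((t⁻¹) ^ (2 * k)) • (Qf (t • e)) ^ k

lemma Gf_apply (e : V n) (k : ℕ) (t : ℝ) (x : V n) :
    Gf e k t x = (t⁻¹) ^ (2 * k) * (Qf (t • e) x) ^ k := by
  simp [Gf]

lemma Gf_nonneg (e : V n) (k : ℕ) {t : ℝ} (ht : 0 < t) (x : V n) : 0 ≤ Gf e k t x := by
  rw [Gf_apply]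
  have := Qf_nonneg (t • e) x
  positivity

lemma Gf_le (e : V n) (k : ℕ) {t : ℝ} (ht : 0 < t) (x : V n) :
    Gf e k t x ≤ (t⁻¹) ^ (2 * k) * 4 ^ k := by
  rw [Gf_apply]
  have h1 := Qf_nonneg (t • e) x
  have h2 := Qf_le (t • e) x
  gcongr

lemma Gf_two (e : V n) (k : ℕ) {t : ℝ} (ht : 0 < t) (x : V n) : Gf e k (2 * t) x ≤ Gf e k t x := by
  rw [Gf_apply, Gf_apply]
  have h1 := Qf_nonneg (t • e) x
  have h2 := Qf_le (t • e) x
  have h3 : Qf ((2 * t) • e) x = Qf (t • e) x * (4 - Qf (t • e) x) := by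
    rw [mul_smul, Qf_two]
  rw [h3, mul_inv, mul_pow, mul_pow]
  have h4 : ((2 : ℝ)⁻¹) ^ (2 * k) * (4 - Qf (t • e) x) ^ k ≤ 1 := by
    rw [pow_mul, ← mul_pow]
    apply pow_le_one₀
    · have : 0 ≤ 4 - Qf (t • e) x := by linarith
      positivity
    · have e1 : ((2 : ℝ)⁻¹) ^ 2 = 1 / 4 := by norm_num
      rw [e1]
      linarith
  calc (2 : ℝ)⁻¹ ^ (2 * k) * t⁻¹ ^ (2 * k) * ((Qf (t • e) x) ^ k * (4 - Qf (t • e) x) ^ k)
      = ((2 : ℝ)⁻¹ ^ (2 * k) * (4 - Qf (t • e) x) ^ k) * (t⁻¹ ^ (2 * k) * (Qf (t • e) x) ^ k) := by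
        ring
    _ ≤ 1 * (t⁻¹ ^ (2 * k) * (Qf (t • e) x) ^ k) := by gcongr
    _ = _ := one_mul _

lemma Gf_dyadic (e : V n) (k : ℕ) {τ : ℝ} (hτ : 0 < τ) (m : ℕ) (x : V n) :
    Gf e k τ x ≤ Gf e k (τ / 2 ^ m) x := by
  induction m with
  | zero => simp
  | succ m ih =>
    refine ih.trans ?_
    have h1 : τ / 2 ^ m = 2 * (τ / 2 ^ (m + 1)) := by rw [pow_succ]; field_simp
    rw [h1]
    exact Gf_two e k (by positivity) x

/-- `Λ(cos(s x₀) G_t^k)` is controlled for `s > 0` -/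
lemma cos_bound (hc : Ctx L ξ₀ e r P) {k : ℕ} {C : ℝ}
    (hC : ∀ a : V n, ‖a‖ ≤ r → ∀ t : ℝ, 0 < t → t ≤ 1 →
      ‖∑ i ∈ Finset.range (2 * k + 1), ((-1 : ℂ) ^ k * ((-1) ^ i * ((2 * k).choose i : ℂ))) *
        P (a + ((i : ℝ) - k) • t • e)‖ ≤ C * t ^ (2 * k)) {s t : ℝ} (hs0 : 0 < s) (hs1 : s ≤ 1)
    (ht0 : 0 < t) (ht1 : t ≤ 1) (hts : (k * t) ^ 2 ≤ s * r ^ 2) :
    Lam L (cosf (s • ξ₀) * Gf e k t) ≤ C := by
  have h1 : Lam L (cosf (s • ξ₀) * Gf e k t) = (t⁻¹) ^ (2 * k) *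
      (L (bch (-(s • ξ₀)) * ofR ((Qf (t • e)) ^ k))).re := by
    rw [hc.st.re_eq, reR_bch_mul, ← Lam_smul]
    congr 1
    ext x
    simp [Gf]
    ring
  have h2 : L (bch (-(s • ξ₀)) * ofR ((Qf (t • e)) ^ k)) =
      ∑ i ∈ Finset.range (2 * k + 1), ((-1 : ℂ) ^ k * ((-1) ^ i * ((2 * k).choose i : ℂ))) *
        P (-(s • ξ₀) + ((i : ℝ) - k) • t • e) := by
    rw [expand, map_sum]
    refine Finset.sum_congr rfl fun i hi => ?_
    rw [map_smul, smul_eq_mul, hc.hP]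
    rw [smul_smul]
    apply in_ball hc hs0 hs1
    refine le_trans ?_ hts
    rw [mul_pow, mul_pow]
    have hi' : (i : ℝ) ≤ 2 * k := by
      have := Finset.mem_range.1 hi
      have : i ≤ 2 * k := by omega
      exact_mod_cast this
    have hi0 : (0 : ℝ) ≤ i := Nat.cast_nonneg i
    have : ((i : ℝ) - k) ^ 2 ≤ (k : ℝ) ^ 2 := by nlinarith
    gcongr
  have hn : ‖-(s • ξ₀)‖ ≤ r := by
    rw [norm_neg, norm_smul, Real.norm_of_nonneg hs0.le]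
    have := hc.hξ
    nlinarith [norm_nonneg ξ₀]
  have h3 := hC _ hn t ht0 ht1
  rw [← h2] at h3
  rw [h1]
  calc (t⁻¹) ^ (2 * k) * (L (bch (-(s • ξ₀)) * ofR ((Qf (t • e)) ^ k))).re
      ≤ (t⁻¹) ^ (2 * k) * (C * t ^ (2 * k)) := by
        gcongr
        exact (Complex.re_le_norm _).trans h3
    _ = C := by
        rw [inv_pow]
        field_simp

lemma Lam_Fj (L : (V n →ᵇ ℂ) →L[ℂ] ℂ) (N : ℕ) (w : V n) (G : V n →ᵇ ℝ) :
    Lam L (Fj N w * G) = 1 / ((N : ℝ) + 1) * (Lam L G + ∑ m ∈ Finset.range N,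
      (2 * (1 - ((m : ℝ) + 1) / ((N : ℝ) + 1))) * Lam L (cosf (((m : ℝ) + 1) • w) * G)) := by
  have h : Fj N w * G = (1 / ((N : ℝ) + 1)) • (G + ∑ m ∈ Finset.range N,
      (2 * (1 - ((m : ℝ) + 1) / ((N : ℝ) + 1))) • (cosf (((m : ℝ) + 1) • w) * G)) := by
    ext x
    rw [BoundedContinuousFunction.coe_mul, Pi.mul_apply, Fj_apply]
    simp only [BoundedContinuousFunction.coe_smul, BoundedContinuousFunction.coe_add,
      Pi.add_apply, smul_eq_mul, BoundedContinuousFunction.coe_sum, Finset.sum_apply,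
      BoundedContinuousFunction.coe_mul, Pi.mul_apply, cosf_apply, inner_smul_right]
    rw [mul_assoc, add_mul, one_mul, Finset.sum_mul]
    congr 2
    exact Finset.sum_congr rfl fun m _ => by ring
  rw [h, Lam_smul, Lam_add, Lam_sum]
  simp only [Lam_smul]

lemma weight_nonneg {N m : ℕ} (hm : m ∈ Finset.range N) :
    0 ≤ 2 * (1 - ((m : ℝ) + 1) / ((N : ℝ) + 1)) := by
  have h1 : m < N := Finset.mem_range.1 hm
  have h2 : (m : ℝ) + 1 ≤ N + 1 := by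
    have : (m : ℝ) ≤ N := by exact_mod_cast h1.le
    linarith
  have h3 : ((m : ℝ) + 1) / ((N : ℝ) + 1) ≤ 1 := (div_le_one (by positivity)).2 h2
  linarith

lemma weight_sum (N : ℕ) : ∑ m ∈ Finset.range N,
    2 * (1 - ((m : ℝ) + 1) / ((N : ℝ) + 1)) = N := by
  have h1 : ∑ m ∈ Finset.range N, ((m : ℝ) + 1) = N * (N + 1) / 2 := by
    induction N with
    | zero => simp
    | succ N ih => rw [Finset.sum_range_succ, ih]; push_cast; ring
  have h2 : ∑ m ∈ Finset.range N, 2 * (1 - ((m : ℝ) + 1) / ((N : ℝ) + 1)) =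
      2 * (N - (∑ m ∈ Finset.range N, ((m : ℝ) + 1)) / ((N : ℝ) + 1)) := by
    rw [← Finset.mul_sum, Finset.sum_sub_distrib, ← Finset.sum_div]
    simp
  rw [h2, h1]
  field_simp
  ring

lemma Lam_Fj_le (N : ℕ) (w : V n) (G : V n →ᵇ ℝ) {C : ℝ} (hC0 : 0 ≤ C)
    (hC : ∀ m ∈ Finset.range N, Lam L (cosf (((m : ℝ) + 1) • w) * G) ≤ C) :
    Lam L (Fj N w * G) ≤ Lam L G / ((N : ℝ) + 1) + C := by
  rw [Lam_Fj]
  have h1 : ∑ m ∈ Finset.range N, (2 * (1 - ((m : ℝ) + 1) / ((N : ℝ) + 1))) *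
      Lam L (cosf (((m : ℝ) + 1) • w) * G) ≤
      ∑ m ∈ Finset.range N, (2 * (1 - ((m : ℝ) + 1) / ((N : ℝ) + 1))) * C := by
    apply Finset.sum_le_sum
    intro m hm
    exact mul_le_mul_of_nonneg_left (hC m hm) (weight_nonneg hm)
  rw [← Finset.sum_mul, weight_sum] at h1
  have hN : (0 : ℝ) < (N : ℝ) + 1 := by positivity
  calc 1 / ((N : ℝ) + 1) * (Lam L G + ∑ m ∈ Finset.range N,
      (2 * (1 - ((m : ℝ) + 1) / ((N : ℝ) + 1))) * Lam L (cosf (((m : ℝ) + 1) • w) * G))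
      ≤ 1 / ((N : ℝ) + 1) * (Lam L G + N * C) := by gcongr
    _ = Lam L G / ((N : ℝ) + 1) + N / ((N : ℝ) + 1) * C := by ring
    _ ≤ Lam L G / ((N : ℝ) + 1) + 1 * C := by
        gcongr
        rw [div_le_one hN]; linarith
    _ = _ := by rw [one_mul]

lemma Lam_one_sub_Fj_le (hL : State L) (N : ℕ) (w : V n) {ε : ℝ}
    (hε : ∀ m ∈ Finset.range N, 1 - Lam L (cosf (((m : ℝ) + 1) • w)) ≤ ε) (hε0 : 0 ≤ ε) :
    Lam L (1 - Fj N w) ≤ ε := by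
  have h1 := Lam_Fj L N w 1
  simp only [mul_one] at h1
  rw [Lam_sub, hL.Lam_one, h1, hL.Lam_one]
  have h2 : ∑ m ∈ Finset.range N, (2 * (1 - ((m : ℝ) + 1) / ((N : ℝ) + 1))) * (1 - ε) ≤
      ∑ m ∈ Finset.range N, (2 * (1 - ((m : ℝ) + 1) / ((N : ℝ) + 1))) *
        Lam L (cosf (((m : ℝ) + 1) • w)) := by
    apply Finset.sum_le_sum
    intro m hm
    refine mul_le_mul_of_nonneg_left ?_ (weight_nonneg hm)
    linarith [hε m hm]
  rw [← Finset.sum_mul, weight_sum] at h2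
  have hN : (0 : ℝ) < (N : ℝ) + 1 := by positivity
  calc 1 - 1 / ((N : ℝ) + 1) * (1 + ∑ m ∈ Finset.range N,
      (2 * (1 - ((m : ℝ) + 1) / ((N : ℝ) + 1))) * Lam L (cosf (((m : ℝ) + 1) • w)))
      ≤ 1 - 1 / ((N : ℝ) + 1) * (1 + N * (1 - ε)) := by gcongr
    _ = N / ((N : ℝ) + 1) * ε := by field_simp; ring
    _ ≤ 1 * ε := by
        gcongr
        rw [div_le_one hN]; linarith
    _ = ε := one_mul _

/-- `Λ(cos(s x₀)) = Re P(-s ξ₀)` -/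
lemma Lam_cosf (hc : Ctx L ξ₀ e r P) {s : ℝ} (hs0 : 0 < s) (hs1 : s ≤ 1) :
    Lam L (cosf (s • ξ₀)) = (P (-(s • ξ₀))).re := by
  have h1 := reR_bch_mul (s • ξ₀) (1 : V n →ᵇ ℝ)
  have h2 : ofR (1 : V n →ᵇ ℝ) = 1 := by ext x; simp
  rw [h2, mul_one, mul_one] at h1
  rw [← h1, ← hc.st.re_eq, hc.hP]
  have := in_ball hc hs0 hs1 (u := 0) (by
    have := hc.hr
    rw [zero_pow two_ne_zero]
    positivity)
  simpa using this

lemma P_zero (hc : Ctx L ξ₀ e r P) : P 0 = 1 := by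
  rw [← hc.hP 0 (by rw [add_zero]; exact hc.hξ)]
  have : (bch 0 : V n →ᵇ ℂ) = 1 := by ext x; simp [ch_zero]
  rw [this, hc.st.one]

/-- the basic estimate -/
lemma basic (hc : Ctx L ξ₀ e r P) {k : ℕ} (hk : 1 ≤ k) {C : ℝ} (hC0 : 0 ≤ C)
    (hC : ∀ a : V n, ‖a‖ ≤ r → ∀ t : ℝ, 0 < t → t ≤ 1 →
      ‖∑ i ∈ Finset.range (2 * k + 1), ((-1 : ℂ) ^ k * ((-1) ^ i * ((2 * k).choose i : ℂ))) *
        P (a + ((i : ℝ) - k) • t • e)‖ ≤ C * t ^ (2 * k)) {τ : ℝ} (hτ : 0 < τ)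
    (hlim : Tendsto (fun m : ℕ => (τ / 2 ^ m) ^ 2 * Lam L (Gf e k (τ / 2 ^ m))) atTop (𝓝 0)) :
    Lam L (Gf e k τ) ≤ C := by
  have hr := hc.hr
  have hk0 : (0 : ℝ) < k := by exact_mod_cast hk
  set A : ℝ := (τ⁻¹) ^ (2 * k) * 4 ^ k with hA
  have hA0 : 0 < A := by positivity
  -- for every `δ > 0`
  refine le_of_forall_pos_le_add fun δ hδ => ?_
  -- choice of `s₁`
  obtain ⟨s₁, hs0, hs1, hs⟩ : ∃ s₁ : ℝ, 0 < s₁ ∧ s₁ ≤ 1 ∧ ∀ s, 0 < s → s ≤ s₁ →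
      1 - (P (-(s • ξ₀))).re ≤ δ / (2 * A) := by
    have hcont : Continuous (fun s : ℝ => 1 - (P (-(s • ξ₀))).re) := by
      have := hc.hPc
      fun_prop
    have h0 : 1 - (P (-((0 : ℝ) • ξ₀))).re = 0 := by
      simp [P_zero hc]
    have h1 : Tendsto (fun s : ℝ => 1 - (P (-(s • ξ₀))).re) (𝓝 0) (𝓝 0) := by
      have := hcont.tendsto 0
      rwa [h0] at this
    have h2 := h1.eventually (gt_mem_nhds (show (0 : ℝ) < δ / (2 * A) by positivity))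
    obtain ⟨ρ, hρ, hb⟩ := Metric.eventually_nhds_iff_ball.1 h2
    refine ⟨min (ρ / 2) 1, by positivity, min_le_right _ _, fun s hs0 hs => (hb s ?_).le⟩
    rw [mem_ball_zero_iff, Real.norm_of_nonneg hs0.le]
    have := min_le_left (ρ / 2) 1
    linarith
  -- choice of `t`
  have htm : Tendsto (fun m : ℕ => τ / 2 ^ m) atTop (𝓝 0) := by
    have := tendsto_pow_atTop_nhds_zero_of_lt_one (r := (1 / 2 : ℝ)) (by norm_num) (by norm_num)
    have h2 := this.const_mul τ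
    rw [mul_zero] at h2
    refine h2.congr fun m => ?_
    rw [one_div, inv_pow]; rfl
  set c : ℝ := 2 * k ^ 2 / (r ^ 2 * s₁) with hcdef
  have hc0 : 0 < c := by positivity
  have e1 : ∀ᶠ m : ℕ in atTop, τ / 2 ^ m < 1 := htm.eventually (gt_mem_nhds one_pos)
  have e2 : ∀ᶠ m : ℕ in atTop, (k * (τ / 2 ^ m)) ^ 2 / r ^ 2 < s₁ / 2 := by
    have h1 : Tendsto (fun m : ℕ => (k * (τ / 2 ^ m)) ^ 2 / r ^ 2) atTop (𝓝 ((k * 0) ^ 2 / r ^ 2)) :=
      ((htm.const_mul (k : ℝ)).pow 2).div_const _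
    rw [mul_zero, zero_pow two_ne_zero, zero_div] at h1
    exact h1.eventually (gt_mem_nhds (by positivity))
  have e3 : ∀ᶠ m : ℕ in atTop, (τ / 2 ^ m) ^ 2 * Lam L (Gf e k (τ / 2 ^ m)) < δ / 2 / c :=
    hlim.eventually (gt_mem_nhds (by positivity))
  obtain ⟨m, hm1, hm2, hm3⟩ := (e1.and (e2.and e3)).exists
  set t : ℝ := τ / 2 ^ m with ht
  have ht0 : 0 < t := by positivity
  set h : ℝ := (k * t) ^ 2 / r ^ 2 with hh
  have hh0 : 0 < h := by positivity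
  set N : ℕ := ⌊s₁ / h⌋₊ with hN
  have hN1 : (N : ℝ) * h ≤ s₁ := by
    have := Nat.floor_le (show 0 ≤ s₁ / h by positivity)
    rw [← hN, le_div_iff₀ hh0] at this
    exact this
  have hN2 : s₁ / h < (N : ℝ) + 1 := Nat.lt_floor_add_one _
  have hGt0 : 0 ≤ Lam L (Gf e k t) := hc.st.Lam_nonneg (Gf_nonneg e k ht0)
  -- the two pieces
  have hsplit : Lam L (Gf e k τ) ≤ Lam L (Fj N (h • ξ₀) * Gf e k t) +
      A * Lam L (1 - Fj N (h • ξ₀)) := by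
    rw [← Lam_smul, ← Lam_add]
    apply hc.st.Lam_mono
    intro x
    have g1 := Gf_dyadic e k hτ m x
    have g2 := Gf_le e k hτ x
    have g3 := Fj_nonneg N (h • ξ₀) x
    have g4 := Fj_le_one N (h • ξ₀) x
    simp only [BoundedContinuousFunction.coe_add, Pi.add_apply, BoundedContinuousFunction.coe_mul,
      Pi.mul_apply, BoundedContinuousFunction.coe_smul, BoundedContinuousFunction.coe_sub,
      Pi.sub_apply, BoundedContinuousFunction.coe_one, Pi.one_apply, smul_eq_mul]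
    calc Gf e k τ x = Fj N (h • ξ₀) x * Gf e k τ x + Gf e k τ x * (1 - Fj N (h • ξ₀) x) := by ring
      _ ≤ Fj N (h • ξ₀) x * Gf e k t x + A * (1 - Fj N (h • ξ₀) x) := by
          have : 0 ≤ 1 - Fj N (h • ξ₀) x := by linarith
          gcongr
  have hrange : ∀ i ∈ Finset.range N, 0 < ((i : ℝ) + 1) * h ∧ ((i : ℝ) + 1) * h ≤ s₁ := by
    intro i hi
    have h1 : i < N := Finset.mem_range.1 hi
    have h2 : (i : ℝ) + 1 ≤ N := by exact_mod_cast h1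
    constructor
    · positivity
    · exact (mul_le_mul_of_nonneg_right h2 hh0.le).trans hN1
  have hp1 : Lam L (Fj N (h • ξ₀) * Gf e k t) ≤ Lam L (Gf e k t) / ((N : ℝ) + 1) + C := by
    apply Lam_Fj_le N _ _ hC0
    intro i hi
    obtain ⟨r1, r2⟩ := hrange i hi
    rw [smul_smul]
    refine cos_bound hc hC r1 (r2.trans hs1) ht0 hm1.le ?_
    have : (k * t) ^ 2 = h * r ^ 2 := by rw [hh]; field_simp
    rw [this]
    have hi0 : (0 : ℝ) ≤ i := Nat.cast_nonneg i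
    have : h ≤ ((i : ℝ) + 1) * h := by nlinarith
    gcongr
  have hp2 : Lam L (1 - Fj N (h • ξ₀)) ≤ δ / (2 * A) := by
    apply Lam_one_sub_Fj_le hc.st _ _ _ (by positivity)
    intro i hi
    obtain ⟨r1, r2⟩ := hrange i hi
    rw [smul_smul, Lam_cosf hc r1 (r2.trans hs1)]
    exact hs _ r1 r2
  have hp3 : Lam L (Gf e k t) / ((N : ℝ) + 1) ≤ δ / 2 := by
    have h1 : Lam L (Gf e k t) / ((N : ℝ) + 1) ≤ Lam L (Gf e k t) / (s₁ / h) := by
      gcongr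
    refine h1.trans ?_
    have h2 : Lam L (Gf e k t) / (s₁ / h) = (c / 2) * (t ^ 2 * Lam L (Gf e k t)) := by
      rw [hh, hcdef]
      field_simp
    rw [h2]
    have h3 : (c / 2) * (t ^ 2 * Lam L (Gf e k t)) ≤ (c / 2) * (δ / 2 / c) := by
      gcongr
    refine h3.trans ?_
    have : (c / 2) * (δ / 2 / c) = δ / 4 := by field_simp; ring
    rw [this]
    linarith
  have hp4 : A * Lam L (1 - Fj N (h • ξ₀)) ≤ δ / 2 := by
    calc A * Lam L (1 - Fj N (h • ξ₀)) ≤ A * (δ / (2 * A)) := by gcongr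
      _ = δ / 2 := by field_simp
  linarith

end Pool.Agent.R231.BN
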