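import Mathlib
import Pool.Agent.R231.BN.Core

set_option autoImplicit false

open Filter Topology Set Metric MeasureTheory
open scoped BoundedContinuousFunction

namespace Pool.Agent.R231.BN

variable {n : ℕ} {L : (V n →ᵇ ℂ) →L[ℂ] ℂ} {ξ₀ e : V n} {r : ℝ} {P : V n → ℂ}

lemma tendsto_div_two_pow (τ : ℝ) : Tendsto (fun m : ℕ => τ / 2 ^ m) atTop (𝓝 0) := by
  have := tendsto_pow_atTop_nhds_zero_of_lt_one (r := (1 / 2 : ℝ)) (by norm_num) (by norm_num)
  have h2 := this.const_mul τ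
  rw [mul_zero] at h2
  refine h2.congr fun m => ?_
  rw [one_div, inv_pow]; rfl

lemma cos_ineq (A B : ℝ) : 2 * (1 - Real.cos A) ≤
    2 * (2 * (1 - Real.cos (A - B))) + 2 * (2 * (1 - Real.cos B)) := by
  have h1 : Real.cos A = Real.cos (A - B) * Real.cos B - Real.sin (A - B) * Real.sin B := by
    rw [← Real.cos_add]; congr 1; ring
  have h2 := Real.cos_sq_add_sin_sq (A - B)
  have h3 := Real.cos_sq_add_sin_sq B
  rw [h1]
  nlinarith [sq_nonneg (Real.sin (A - B) - Real.sin B), sq_nonneg (Real.cos (A - B) - Real.cos B),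
    sq_nonneg (Real.cos (A - B) + Real.cos B - 2), Real.cos_le_one B, Real.cos_le_one (A - B)]

lemma Lam_Qf (hL : State L) (w : V n) : Lam L (Qf w) = 2 * (1 - (L (bch w)).re) := by
  unfold Qf
  rw [Lam_smul, Lam_sub, hL.Lam_one, hL.re_eq, reR_bch]

lemma base_case (hc : Ctx L ξ₀ e r P) {τ : ℝ} (hτ : 0 < τ) :
    Tendsto (fun m : ℕ => (τ / 2 ^ m) ^ 2 * Lam L (Gf e 1 (τ / 2 ^ m))) atTop (𝓝 0) := by
  have hr := hc.hr
  have hPc := hc.hPc
  have htm := tendsto_div_two_pow τ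
  have h1 : ∀ m : ℕ, (τ / 2 ^ m) ^ 2 * Lam L (Gf e 1 (τ / 2 ^ m)) = Lam L (Qf ((τ / 2 ^ m) • e)) := by
    intro m
    unfold Gf
    rw [Lam_smul, pow_one, ← mul_assoc]
    have : (τ / 2 ^ m) ^ 2 * (τ / 2 ^ m)⁻¹ ^ (2 * 1) = 1 := by
      rw [mul_one, ← mul_pow, mul_inv_cancel₀ (by positivity), one_pow]
    rw [this, one_mul]
  simp only [h1]
  -- upper bound
  set U : ℝ → ℝ := fun t => 2 * (2 * (1 - (P (t • e - (t ^ 2 / r ^ 2) • ξ₀)).re)) +
    2 * (2 * (1 - (P (-((t ^ 2 / r ^ 2) • ξ₀))).re)) with hU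
  have hUc : Continuous U := by fun_prop
  have hU0 : U 0 = 0 := by simp [hU, P_zero hc]
  have hlim : Tendsto (fun m : ℕ => U (τ / 2 ^ m)) atTop (𝓝 0) := by
    have := (hUc.tendsto 0).comp htm
    rwa [hU0] at this
  have e1 : ∀ᶠ m : ℕ in atTop, (τ / 2 ^ m) ^ 2 / r ^ 2 < 1 := by
    have h1 : Tendsto (fun m : ℕ => (τ / 2 ^ m) ^ 2 / r ^ 2) atTop (𝓝 (0 ^ 2 / r ^ 2)) :=
      (htm.pow 2).div_const _
    rw [zero_pow two_ne_zero, zero_div] at h1
    exact h1.eventually (gt_mem_nhds one_pos)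
  refine squeeze_zero' ?_ ?_ hlim
  · exact Filter.Eventually.of_forall fun m => hc.st.Lam_nonneg (Qf_nonneg _)
  · filter_upwards [e1] with m hm
    set t := τ / 2 ^ m with ht
    have ht0 : 0 < t := by positivity
    set s := t ^ 2 / r ^ 2 with hs
    have hs0 : 0 < s := by positivity
    have h2 : Lam L (Qf (t • e)) ≤ Lam L ((2 : ℝ) • Qf (t • e - s • ξ₀) + (2 : ℝ) • Qf (s • ξ₀)) := by
      apply hc.st.Lam_mono
      intro x
      simp only [BoundedContinuousFunction.coe_add, Pi.add_apply, BoundedContinuousFunction.coe_smul,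
        smul_eq_mul, Qf_apply, inner_sub_right]
      exact cos_ineq _ _
    refine h2.trans (le_of_eq ?_)
    rw [Lam_add, Lam_smul, Lam_smul, Lam_Qf hc.st]
    have h3 : L (bch (t • e - s • ξ₀)) = P (t • e - s • ξ₀) := by
      apply hc.hP
      have := in_ball hc hs0 hm.le (u := t) (by rw [hs]; field_simp; rfl)
      rwa [show -(s • ξ₀) + t • e = t • e - s • ξ₀ by abel] at this
    have h4 : Lam L (Qf (s • ξ₀)) = 2 * (1 - (P (-(s • ξ₀))).re) := by
      unfold Qf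
      rw [Lam_smul, Lam_sub, hc.st.Lam_one, Lam_cosf hc hs0 hm.le]
    rw [h3, h4]

lemma step_point (k : ℕ) (hk : 1 ≤ k) {t : ℝ} (ht : 0 < t) (x : V n) :
    t ^ 2 * Gf e (k + 1) t x ≤ 4 * (Gf e k t x - Gf e k (2 * t) x) := by
  rw [Gf_apply, Gf_apply, Gf_apply]
  have h1 := Qf_nonneg (t • e) x
  have h2 := Qf_le (t • e) x
  have h3 : Qf ((2 * t) • e) x = Qf (t • e) x * (4 - Qf (t • e) x) := by
    rw [mul_smul, Qf_two]
  rw [h3]
  generalize Qf (t • e) x = q at h1 h2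
  have h4 : (2 * t)⁻¹ ^ (2 * k) * (q * (4 - q)) ^ k = t⁻¹ ^ (2 * k) * q ^ k * (1 - q / 4) ^ k := by
    rw [mul_inv, mul_pow, pow_mul (2⁻¹ : ℝ), mul_assoc, mul_comm (t⁻¹ ^ (2 * k)), ← mul_assoc,
      ← mul_pow, mul_assoc, mul_comm ((2⁻¹ ^ 2 * (q * (4 - q))) ^ k), ← mul_pow]
    congr 2
    ring
  have h5 : (1 - q / 4) ^ k ≤ 1 - q / 4 := by
    have h6 : 0 ≤ 1 - q / 4 := by linarith
    have h7 : 1 - q / 4 ≤ 1 := by linarith
    calc (1 - q / 4) ^ k ≤ (1 - q / 4) ^ 1 := pow_le_pow_of_le_one h6 h7 hk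
      _ = _ := pow_one _
  have h8 : t ^ 2 * (t⁻¹ ^ (2 * (k + 1)) * q ^ (k + 1)) = t⁻¹ ^ (2 * k) * q ^ k * q := by
    rw [mul_add, pow_add, pow_succ q]
    have : t ^ 2 * t⁻¹ ^ (2 * 1) = 1 := by
      rw [mul_one, ← mul_pow, mul_inv_cancel₀ ht.ne', one_pow]
    linear_combination (t⁻¹ ^ (2 * k) * (q ^ k * q)) * this
  rw [h4, h8]
  have h9 : 0 ≤ t⁻¹ ^ (2 * k) * q ^ k := by positivity
  nlinarith

lemma all_k (hc : Ctx L ξ₀ e r P) : ∀ k : ℕ, 1 ≤ k → ∀ τ : ℝ, 0 < τ →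
    Tendsto (fun m : ℕ => (τ / 2 ^ m) ^ 2 * Lam L (Gf e k (τ / 2 ^ m))) atTop (𝓝 0) := by
  intro k hk
  induction k, hk using Nat.le_induction with
  | base => intro τ hτ; exact base_case hc hτ
  | succ k hk ih =>
    intro τ hτ
    obtain ⟨N₀, hN₀⟩ := diff_bound hc
    obtain ⟨C, hC0, _, hC⟩ := hN₀ k
    have hbd : ∀ τ : ℝ, 0 < τ → Lam L (Gf e k τ) ≤ C := fun τ hτ =>
      basic hc hk hC0 hC hτ (ih τ hτ)
    set a : ℕ → ℝ := fun m => Lam L (Gf e k (τ / 2 ^ m)) with ha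
    have hhalf : ∀ m : ℕ, 2 * (τ / 2 ^ (m + 1)) = τ / 2 ^ m := by
      intro m; rw [pow_succ]; field_simp
    have hmono : Monotone a := by
      apply monotone_nat_of_le_succ
      intro m
      simp only [ha]
      rw [← hhalf m]
      exact hc.st.Lam_mono fun x => Gf_two e k (by positivity) x
    have hbdd : BddAbove (range a) := ⟨C, by rintro _ ⟨m, rfl⟩; exact hbd _ (by positivity)⟩
    have hlim := tendsto_atTop_ciSup hmono hbdd
    have hlim1 := hlim.comp (tendsto_add_atTop_nat 1)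
    have hdiff : Tendsto (fun m : ℕ => 4 * (a (m + 1) - a m)) atTop (𝓝 0) := by
      have := (hlim1.sub hlim).const_mul 4
      rw [sub_self, mul_zero] at this
      exact this
    rw [← tendsto_add_atTop_iff_nat 1]
    refine squeeze_zero (fun m => ?_) (fun m => ?_) hdiff
    · have : 0 ≤ Lam L (Gf e (k + 1) (τ / 2 ^ (m + 1))) :=
        hc.st.Lam_nonneg (Gf_nonneg e _ (by positivity))
      positivity
    · simp only [ha]
      rw [← Lam_sub, ← Lam_smul, ← Lam_smul]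
      apply hc.st.Lam_mono
      intro x
      have := step_point (e := e) k hk (t := τ / 2 ^ (m + 1)) (by positivity) x
      rw [hhalf m] at this
      simpa using this

/-- the final vanishing statement -/
lemma Lam_Qf_zero (hc : Ctx L ξ₀ e r P) {τ : ℝ} (hτ : 0 < τ) : Lam L (Qf (τ • e)) ≤ 0 := by
  obtain ⟨N₀, hN₀⟩ := diff_bound hc
  set k := N₀ + 1 with hk
  obtain ⟨C, hC0, hCz, hC⟩ := hN₀ k
  have h1 : Lam L (Gf e k τ) ≤ C := basic hc (by omega) hC0 hC hτ (all_k hc k (by omega) τ hτ)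
  rw [hCz (by omega)] at h1
  have h2 : Lam L ((Qf (τ • e)) ^ k) ≤ 0 := by
    unfold Gf at h1
    rw [Lam_smul] at h1
    have h3 : 0 < τ⁻¹ ^ (2 * k) := by positivity
    by_contra hneg
    push Not at hneg
    have := mul_pos h3 hneg
    linarith
  refine le_of_forall_pos_le_add fun δ hδ => ?_
  rw [zero_add]
  have h3 : Lam L (Qf (τ • e)) ≤ Lam L (δ • (1 : V n →ᵇ ℝ) + ((δ⁻¹) ^ (k - 1)) • (Qf (τ • e)) ^ k) := by
    apply hc.st.Lam_mono
    intro x
    have h4 := Qf_nonneg (τ • e) x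
    simp only [BoundedContinuousFunction.coe_add, Pi.add_apply, BoundedContinuousFunction.coe_smul,
      BoundedContinuousFunction.coe_one, Pi.one_apply, smul_eq_mul, mul_one,
      BoundedContinuousFunction.coe_pow, Pi.pow_apply]
    generalize Qf (τ • e) x = q at h4
    rcases le_total q δ with h | h
    · have : 0 ≤ (δ⁻¹) ^ (k - 1) * q ^ k := by positivity
      linarith
    · have h5 : 1 ≤ δ⁻¹ * q := by
        rw [inv_mul_eq_div, one_le_div hδ]; exact h
      have h6 : q ^ k = q ^ (k - 1) * q := by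
        rw [← pow_succ]; congr 1
      rw [h6, ← mul_assoc, ← mul_pow]
      have h7 : 1 ≤ (δ⁻¹ * q) ^ (k - 1) := one_le_pow₀ h5
      nlinarith
  rw [Lam_add, Lam_smul, Lam_smul, hc.st.Lam_one, mul_one] at h3
  have h5 : (δ⁻¹) ^ (k - 1) * Lam L ((Qf (τ • e)) ^ k) ≤ 0 :=
    mul_nonpos_of_nonneg_of_nonpos (by positivity) h2
  linarith

/-- invariance under tangential translations -/
lemma shift_invariant (hc : Ctx L ξ₀ e r P) {τ : ℝ} (hτ : 0 < τ) (η : V n) :
    L (bch (η + τ • e)) = L (bch η) := by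
  have hQ := Lam_Qf_zero hc hτ
  set g : V n →ᵇ ℂ := bch (η + τ • e) - bch η with hg
  have hgx : ∀ x, ‖g x‖ ^ 2 = Qf (τ • e) x := by
    intro x
    have h1 : g x = ch η x * (ch (τ • e) x - 1) := by
      simp only [hg, BoundedContinuousFunction.coe_sub, Pi.sub_apply, bch_apply, ch_add]; ring
    rw [h1, norm_mul, norm_ch, one_mul, ← Complex.normSq_eq_norm_sq, Complex.normSq_apply, Qf_apply,
      ← ch_re]
    have h2 : (ch (τ • e) x).re ^ 2 + (ch (τ • e) x).im ^ 2 = 1 := by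
      have := norm_ch (τ • e) x
      have h3 : Complex.normSq (ch (τ • e) x) = 1 := by
        rw [Complex.normSq_eq_norm_sq, this]; norm_num
      rw [Complex.normSq_apply] at h3
      linarith
    simp only [Complex.sub_re, Complex.sub_im, Complex.one_re, Complex.one_im]
    linear_combination h2
  suffices h : ‖L g‖ ≤ 0 by
    have h1 : L g = 0 := norm_le_zero_iff.1 h
    rw [hg, map_sub, sub_eq_zero] at h1
    exact h1
  refine le_of_forall_pos_le_add fun δ hδ => ?_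
  rw [zero_add]
  by_cases hz : L g = 0
  · rw [hz, norm_zero]; exact hδ.le
  set c : ℂ := (‖L g‖ : ℂ) / L g with hcdef
  have hcn : ‖c‖ = 1 := by
    rw [hcdef, norm_div, Complex.norm_real, norm_norm, div_self (norm_ne_zero_iff.2 hz)]
  have hcL : L (c • g) = (‖L g‖ : ℂ) := by
    rw [map_smul, smul_eq_mul, hcdef, div_mul_cancel₀ _ hz]
  have h1 : ‖L g‖ = Lam L (reR (c • g)) := by
    rw [← hc.st.re_eq, hcL, Complex.ofReal_re]
  rw [h1]
  have h2 : Lam L (reR (c • g)) ≤ Lam L ((δ / 2) • (1 : V n →ᵇ ℝ) + (1 / (2 * δ)) • Qf (τ • e)) := by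
    apply hc.st.Lam_mono
    intro x
    have h3 : reR (c • g) x ≤ ‖g x‖ := by
      show ((c • g) x).re ≤ ‖g x‖
      refine (Complex.re_le_norm _).trans ?_
      show ‖c • g x‖ ≤ ‖g x‖
      rw [norm_smul, hcn, one_mul]
    refine h3.trans ?_
    simp only [BoundedContinuousFunction.coe_add, Pi.add_apply, BoundedContinuousFunction.coe_smul,
      BoundedContinuousFunction.coe_one, Pi.one_apply, smul_eq_mul, mul_one]
    rw [← hgx]
    have h4 : δ / 2 + 1 / (2 * δ) * ‖g x‖ ^ 2 - ‖g x‖ = (δ - ‖g x‖) ^ 2 / (2 * δ) := by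
      field_simp
      ring
    have h5 : 0 ≤ (δ - ‖g x‖) ^ 2 / (2 * δ) := by positivity
    linarith
  rw [Lam_add, Lam_smul, Lam_smul, hc.st.Lam_one] at h2
  have h5 : 1 / (2 * δ) * Lam L (Qf (τ • e)) ≤ 0 :=
    mul_nonpos_of_nonneg_of_nonpos (by positivity) hQ
  linarith

end Pool.Agent.R231.BN
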